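import Pool.Agent.N983.RT.Stm2

set_option autoImplicit false

namespace Pool.Agent.U448.RT

open Pool.Agent.N983.RT

theorem summable_one : Summable fun n : ℤ => (1 + (n : ℝ) ^ 2)⁻¹ := by
  have h1 : Summable fun n : ℤ => 1 / (n : ℝ) ^ 2 := Real.summable_one_div_int_pow.2 (by norm_num)
  rw [← Set.finite_singleton (0 : ℤ) |>.summable_compl_iff] at h1 ⊢
  refine Summable.of_nonneg_of_le (fun n => ?_) (fun n => ?_) h1
  · simp only [Function.comp]
    positivity
  have hn : (n : ℤ) ≠ 0 := n.2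
  have h2 : (0 : ℝ) < ((n : ℤ) : ℝ) ^ 2 := by
    have : ((n : ℤ) : ℝ) ≠ 0 := by exact_mod_cast hn
    positivity
  simp only [Function.comp, one_div]
  exact inv_anti₀ h2 (by linarith)

theorem nsq_nonneg' (k : Wv) : 0 ≤ nsq k := by
  unfold nsq
  exact Finset.sum_nonneg fun i _ => sq_nonneg (k i : ℝ)

theorem prod_le (k : Wv) : ∏ i, (1 + (k i : ℝ) ^ 2) ≤ (1 + nsq k) ^ 3 := by
  have h : ∀ i ∈ (Finset.univ : Finset (Fin 3)), (1 + (k i : ℝ) ^ 2) ≤ 1 + nsq k := by
    intro i _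
    have : (k i : ℝ) ^ 2 ≤ nsq k :=
      Finset.single_le_sum (f := fun i => (k i : ℝ) ^ 2) (fun i _ => sq_nonneg _) (Finset.mem_univ i)
    linarith
  calc ∏ i, (1 + (k i : ℝ) ^ 2) ≤ ∏ _i : Fin 3, (1 + nsq k) :=
        Finset.prod_le_prod (fun i _ => by positivity) h
    _ = (1 + nsq k) ^ 3 := by simp

theorem t_SUM : S_SUM := by
  unfold S_SUM
  refine summable_of_sum_le (c := (∑' n : ℤ, (1 + (n : ℝ) ^ 2)⁻¹) ^ 3) ?_ ?_
  · intro k
    have := nsq_nonneg' k
    positivity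
  · intro s
    calc ∑ k ∈ s, ((1 + nsq k) ^ 3)⁻¹ ≤ ∑ k ∈ s, ∏ i, (1 + (k i : ℝ) ^ 2)⁻¹ := by
          refine Finset.sum_le_sum fun k _ => ?_
          rw [Finset.prod_inv_distrib]
          exact inv_anti₀ (Finset.prod_pos fun i _ => by positivity) (prod_le k)
      _ ≤ ∑ k ∈ Fintype.piFinset (fun i : Fin 3 => s.image (fun k : Wv => k i)),
            ∏ i, (1 + (k i : ℝ) ^ 2)⁻¹ := by
          refine Finset.sum_le_sum_of_subset_of_nonneg ?_ ?_
          · intro k hk
            rw [Fintype.mem_piFinset]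
            intro i
            exact Finset.mem_image_of_mem (fun k : Wv => k i) hk
          · intro k _ _
            exact Finset.prod_nonneg fun i _ => by positivity
      _ = ∏ i : Fin 3, ∑ n ∈ s.image (fun k : Wv => k i), (1 + ((n : ℤ) : ℝ) ^ 2)⁻¹ := by
          rw [Finset.prod_univ_sum]
      _ ≤ ∏ _i : Fin 3, ∑' n : ℤ, (1 + (n : ℝ) ^ 2)⁻¹ := by
          refine Finset.prod_le_prod (fun i _ => Finset.sum_nonneg fun n _ => by positivity) ?_
          intro i _
          exact summable_one.sum_le_tsum _ (fun n _ => by positivity)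
      _ = (∑' n : ℤ, (1 + (n : ℝ) ^ 2)⁻¹) ^ 3 := by simp

end Pool.Agent.U448.RT
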